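import Pool.Agent.Helper23.MC.Goals1
import Pool.Agent.Helper74.CG.CM
import Pool.Agent.Helper88.CG.VP

/-! # Packet MC-CMA (MP_69be96_nt): combinatorial comparison of the mean squares, cost E/32 -/

set_option autoImplicit false

open Finset Filter Topology

open scoped Classical

namespace Pool.Agent.Helper53.MC

open Pool.Agent.Helper88.PP (pr Rg om Sf SS uu vv ee LA VV QQ cost)
open Pool.Agent.Helper88.RR (gg ab TB WB nz DB VM wb)
open Pool.Agent.Helper88.CG
open Pool.Agent.Helper23.MC (D1 StmtCMA)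
open Pool.Agent.Helper33.RR (card_labels gg_nonneg gg_succ om_nonneg VV_nonneg)
open Pool.Agent.Helper74.CG (Wr Ts tau Wr_nonneg Ts_eq tau_nonneg tau_zero DB_eq RS_eq gg_le DB_le
  choose_cmp sp)

/-- MC-CMA. -/
theorem cma : StmtCMA := by
  obtain ⟨c, hc, E1, hE1⟩ := vp
  intro η hη
  obtain ⟨e0, he0⟩ : ∃ e0 : ℝ, e0 = max 1 (1 / η) := ⟨_, rfl⟩
  have he01 : 1 ≤ e0 := by rw [he0]; exact le_max_left _ _
  refine ⟨max E1 ⌈e0 ^ 12⌉₊, ?_⟩
  intro E z y hE hz hy P S hS hor
  obtain ⟨hm, -, -, hK6', hm4, hV⟩ := hE1 E (le_trans (le_max_left _ _) hE)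
  have hK6 : (2 * (E / 32 / mE E + 2)) ^ 6 ≤ E := by
    refine le_trans (Nat.pow_le_pow_left ?_ 6) hK6'
    have h1 : E / 32 / mE E ≤ E / 16 / mE E := Nat.div_le_div_right (by omega)
    omega
  obtain ⟨hV1, -⟩ := hV z hz
  have hEe : e0 ^ 12 ≤ E := (Nat.le_ceil _).trans (by exact_mod_cast (le_max_right _ _).trans hE)
  obtain ⟨m, hmd⟩ : ∃ m, m = mE E := ⟨_, rfl⟩
  obtain ⟨q, hqd⟩ : ∃ q, q = qE E := ⟨_, rfl⟩
  obtain ⟨M, hMd⟩ : ∃ M, M = E / 32 := ⟨_, rfl⟩
  unfold D1
  simp only [← hmd, ← hqd, ← hMd] at hm hK6 hm4 hV1 hor ⊢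
  obtain ⟨K, hKd⟩ : ∃ K, K = M / m := ⟨_, rfl⟩
  rw [← hKd] at hK6 hor
  have hKy : K ≤ y := by
    have h1 : K ≤ M := by rw [hKd]; exact Nat.div_le_self _ _
    have h2 : M ≤ E := by rw [hMd]; exact Nat.div_le_self _ _
    omega
  have hnz : ∀ P : Finset ℕ, ∀ r ∈ TB m q M z P, nz r ≤ K := fun P r hr => by
    rw [hKd]
    exact card_labels hm hz hr
  have hnzy : ∀ P : Finset ℕ, ∀ r ∈ TB m q M z P, nz r ≤ y := fun P r hr =>
    (hnz P r hr).trans hKy
  rw [RS_eq m q M z hS]
  have hRS0 : 0 ≤ ∑ k ∈ range (P.card + 1), (S.card.choose k : ℝ) * tau m q M z P k :=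
    Finset.sum_nonneg fun k _ => mul_nonneg (by positivity) (tau_nonneg _ _ _ _ _ _)
  have hD0 : 0 ≤ DB m q M z y P := Finset.sum_nonneg fun r hr =>
    mul_nonneg (gg_nonneg (hnzy P r hr)) (Wr_nonneg m q z r)
  rcases le_or_gt 1 η with hη1 | hη1
  · exact (mul_nonpos_of_nonpos_of_nonneg (by linarith only [hη1]) hD0).trans hRS0
  obtain ⟨e, hed⟩ : ∃ e : ℝ, e = (E : ℝ) ^ (1 / 12 : ℝ) := ⟨_, rfl⟩
  have he12 : e ^ 12 = E := by
    rw [hed, ← Real.rpow_natCast, ← Real.rpow_mul (by positivity)]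
    norm_num
  have he0' : 0 ≤ e := by rw [hed]; positivity
  have hee0 : e0 ≤ e := by
    by_contra h
    push Not at h
    have := pow_lt_pow_left₀ h he0' (by norm_num : 12 ≠ 0)
    linarith only [hEe, he12, this]
  have he1 : 1 ≤ e := he01.trans hee0
  have hηe : 1 ≤ η * e := by
    have h1 : 1 / η ≤ e := by
      refine le_trans ?_ hee0
      rw [he0]
      exact le_max_right _ _
    rw [div_le_iff₀ hη] at h1
    linarith only [h1]
  have hsq : √(E : ℝ) = e ^ 6 := by
    rw [← he12, show e ^ 12 = (e ^ 6) ^ 2 by ring]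
    exact Real.sqrt_sq (by positivity)
  have ho := om_nonneg y z
  rcases le_or_gt ((P.card : ℝ) * om y z) (√(E : ℝ)) with hμ | hμ
  · -- few points
    have h1 := DB_le hnzy P
    obtain ⟨t, ht⟩ : ∃ t, t = ∑ s ∈ LA z m (q * m), ab m q z s ^ 2 * (Nat.totient s : ℝ) :=
      ⟨_, rfl⟩
    rw [← ht] at h1
    have ht0 : 0 ≤ t := by rw [ht]; exact Finset.sum_nonneg fun _ _ => by positivity
    have hmt : (m : ℝ) * t ≤ 1 := by
      have h2 := Pool.Agent.Helper88.RR.sum_wt m q z (by linarith only [hη, hV1, hη1])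
      have h3 : (m : ℝ) * t ≤ ∑ s ∈ LA z m (q * m), (ee z s : ℝ) *
          (ab m q z s ^ 2 * (Nat.totient s : ℝ)) := by
        rw [ht, Finset.mul_sum]
        refine Finset.sum_le_sum fun s hs => mul_le_mul_of_nonneg_right ?_ (by positivity)
        have h4 : m ≤ ee z s := by
          have h5 : z ^ m ≤ s := (mem_filter.1 hs).2
          have h6 : m ≤ Nat.log z s := Nat.le_log_of_pow_le (by omega) h5
          unfold ee
          omega
        exact_mod_cast h4
      rw [h2] at h3
      refine h3.trans ?_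
      rw [div_le_one (by linarith only [hη, hV1, hη1])]
      exact hV1
    have hm9 : e ^ 9 ≤ m := by
      by_contra h
      push Not at h
      have h2 : (m : ℝ) ^ 4 < (e ^ 9) ^ 4 := pow_lt_pow_left₀ h (by positivity) (by norm_num)
      have h3 : ((E ^ 3 : ℕ) : ℝ) ≤ ((m ^ 4 : ℕ) : ℝ) := by exact_mod_cast hm4
      push_cast at h3
      rw [← he12] at h3
      have h4 : (e ^ 12) ^ 3 = (e ^ 9) ^ 4 := by ring
      linarith only [h2, h3]
    have hμt : (P.card : ℝ) * om y z * t ≤ η := by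
      rw [hsq] at hμ
      have h2 : (P.card : ℝ) * om y z * t ≤ e ^ 6 * t := mul_le_mul_of_nonneg_right hμ ht0
      have h3 : e ^ 9 * t ≤ 1 := (mul_le_mul_of_nonneg_right hm9 ht0).trans hmt
      have h4 : e ^ 6 * t ≤ η * (e ^ 9 * t) := by
        have h5 : 1 ≤ η * e ^ 3 := by
          have : e ≤ e ^ 3 := by
            calc e = e ^ 1 := (pow_one e).symm
              _ ≤ e ^ 3 := pow_le_pow_right₀ he1 (by norm_num)
          nlinarith only [hηe, hη, this]
        have h6 : η * (e ^ 9 * t) = (η * e ^ 3) * (e ^ 6 * t) := by ring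
        rw [h6]
        have h7 : 0 ≤ e ^ 6 * t := by positivity
        nlinarith only [hη, hη1, h5, h7]
      have h5 : η * (e ^ 9 * t) ≤ η * 1 := mul_le_mul_of_nonneg_left h3 hη.le
      linarith only [h2, h4, h5]
    have h2 : DB m q M z y P ≤ Real.exp η := by
      refine h1.trans ?_
      calc (1 + om y z * t) ^ P.card ≤ Real.exp (om y z * t) ^ P.card := by
            refine pow_le_pow_left₀ (by positivity) ?_ _
            have := Real.add_one_le_exp (om y z * t)
            linarith only [this]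
        _ = Real.exp (P.card * (om y z * t)) := by rw [Real.exp_nat_mul]
        _ ≤ Real.exp η := Real.exp_le_exp.2 (by linarith only [hμt])
    have h3 : (1 - η) * Real.exp η ≤ 1 := by
      have h4 := Real.add_one_le_exp (-η)
      have h5 : Real.exp (-η) * Real.exp η = 1 := by rw [← Real.exp_add]; simp
      have h6 : 0 < Real.exp η := Real.exp_pos η
      nlinarith only [h5, hη, hD0, h4, hη1, h2]
    have h4 : (1 : ℝ) ≤ ∑ k ∈ range (P.card + 1), (S.card.choose k : ℝ) * tau m q M z P k := by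
      refine le_trans ?_ (Finset.single_le_sum (f := fun k => (S.card.choose k : ℝ) *
        tau m q M z P k) (fun k _ => mul_nonneg (by positivity) (tau_nonneg _ _ _ _ _ _))
        (mem_range.2 (Nat.succ_pos _)))
      simp only [Nat.choose_zero_right, Nat.cast_one, one_mul]
      have h5 := Ts_eq m q M z P ∅
      rw [Finset.card_empty] at h5
      rw [← h5, Ts]
      have h6 : (fun _ : P => (0 : ℕ)) ∈ (TB m q M z P).filter (fun r => sp r = ∅) := by
        rw [mem_filter]
        refine ⟨?_, ?_⟩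
        · simp only [TB, mem_filter, Fintype.mem_piFinset]
          refine ⟨fun i => mem_insert_self _ _, ?_⟩
          simp [cost]
        · simp [sp]
      refine le_trans ?_ (Finset.single_le_sum (f := fun r => Wr m q z r)
        (fun r _ => Wr_nonneg m q z r) h6)
      simp [Wr]
    calc (1 - η) * DB m q M z y P ≤ (1 - η) * Real.exp η :=
          mul_le_mul_of_nonneg_left h2 (by linarith only [hη1])
      _ ≤ 1 := h3
      _ ≤ _ := h4
  · -- many points
    have hs : (P.card : ℝ) * om y z * (1 - η / (4 * ((K : ℝ) + 1))) ≤ S.card := by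
      rcases hor with h | h
      · exact absurd h (not_le.2 hμ)
      · exact h
    have hK2 : (K : ℝ) ^ 2 ≤ 3 * η / 4 * ((P.card : ℝ) * om y z) := by
      rw [hsq] at hμ
      have h1 : (2 * ((K : ℝ) + 2)) ≤ e ^ 2 := by
        by_contra h
        push Not at h
        have h2 := pow_lt_pow_left₀ h (by positivity) (by norm_num : 6 ≠ 0)
        have h3 : (((2 * (K + 2)) ^ 6 : ℕ) : ℝ) ≤ E := by exact_mod_cast hK6
        push_cast at h3
        rw [← he12] at h3
        have h4 : (e ^ 2) ^ 6 = e ^ 12 := by ring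
        linarith only [h2, h3]
      have h2 : (K : ℝ) ^ 2 ≤ e ^ 4 / 4 := by
        have h3 : (K : ℝ) ≤ e ^ 2 / 2 := by linarith only [hη, hη1, h1]
        have h4 : (0 : ℝ) ≤ K := by positivity
        calc (K : ℝ) ^ 2 ≤ (e ^ 2 / 2) ^ 2 := pow_le_pow_left₀ h4 h3 2
          _ = e ^ 4 / 4 := by ring
      have h3 : e ^ 4 / 4 ≤ 3 * η / 4 * e ^ 6 := by
        have h4 : 1 ≤ η * e ^ 2 := by nlinarith only [he01, hee0, hη, hη1, he0', hηe]
        have h5 : 3 * η / 4 * e ^ 6 = 3 / 4 * (η * e ^ 2) * e ^ 4 := by ring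
        rw [h5]
        have h6 : 0 ≤ e ^ 4 := by positivity
        nlinarith only [h1, h4, hη, hη1, h2]
      have h4 : 3 * η / 4 * e ^ 6 ≤ 3 * η / 4 * ((P.card : ℝ) * om y z) :=
        mul_le_mul_of_nonneg_left hμ.le (by positivity)
      linarith only [h2, h3, h4]
    rw [DB_eq, Finset.mul_sum]
    refine Finset.sum_le_sum fun k _ => ?_
    rcases le_or_gt k K with hk | hk
    · have h1 := choose_cmp ho hη hη1 hk hK2 hs
      have h2 := tau_nonneg m q M z P k
      have h3 : gg y z k ≤ om y z ^ k := gg_le (hk.trans hKy)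
      calc (1 - η) * ((P.card.choose k : ℝ) * (gg y z k * tau m q M z P k))
          = ((1 - η) * (P.card.choose k : ℝ)) * gg y z k * tau m q M z P k := by ring
        _ ≤ ((1 - η) * (P.card.choose k : ℝ)) * om y z ^ k * tau m q M z P k := by
            refine mul_le_mul_of_nonneg_right (mul_le_mul_of_nonneg_left h3 ?_) h2
            exact mul_nonneg (by linarith only [hη1]) (by positivity)
        _ = (1 - η) * ((P.card.choose k : ℝ) * om y z ^ k) * tau m q M z P k := by ring
        _ ≤ _ := mul_le_mul_of_nonneg_right h1 h2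
    · rw [tau_zero hm hz P (by rw [← hKd]; exact hk)]
      simp

end Pool.Agent.Helper53.MC
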